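import Pool.Agent.L7h52.NQ.Stm
import Pool.Agent.TH469.SX.Sect

/-! Project NQ: two sectors (parts SECE and SECS). -/

namespace Pool.Agent.L7h4.NQ

open Pool.Agent.TH176.Nag Pool.Agent.TH603.Sur Pool.Agent.TH469.SX Pool.Agent.L7h52.NQ

variable {K : ℝ} {d : ℕ}

theorem eta {j e : ℕ} (h : d = 4 * j + e) :
    (2 * (d : ℝ) - 1) / 8 - ((j : ℤ) : ℝ) = (2 * (e : ℝ) - 1) / 8 := by
  subst h
  push_cast
  ring

theorem mem_E4 {τ : ℝ} {i : ℤ} {j e : ℕ} (h : d = 4 * j + e) :
    ((i, (j : ℤ)) ∈ E4 τ d) ↔ -(τ * hh e) ≤ i ∧ (i : ℝ) ≤ (1 - τ) * hh e := by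
  have h1 : d - 4 * ((j : ℤ)).toNat = e := by
    rw [Int.toNat_natCast]
    omega
  constructor
  · rintro ⟨_, _, h3, h4⟩
    simp only at h3 h4
    rw [h1] at h3 h4
    exact ⟨h3, h4⟩
  · rintro ⟨h3, h4⟩
    refine ⟨by simp only; omega, by simp only; omega, ?_, ?_⟩
    · simp only
      rw [h1]
      exact h3
    · simp only
      rw [h1]
      exact h4

theorem rep {τ : ℝ} {p : ℤ × ℤ} (hp : p ∈ E4 τ d) :
    ∃ j e : ℕ, p.2 = (j : ℤ) ∧ d = 4 * j + e := by
  obtain ⟨h1, h2, -, -⟩ := hp
  refine ⟨p.2.toNat, d - 4 * p.2.toNat, ?_, ?_⟩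
  · omega
  · omega

theorem rep_Bk (h8 : 8 < K) {p : ℤ × ℤ} (hp : p ∈ Bk 8 K d) :
    ∃ j e : ℕ, p.2 = (j : ℤ) ∧ d = 4 * j + e ∧ 1 ≤ e := by
  obtain ⟨h1, h2, h3⟩ := hp
  have h4 : (0 : ℝ) ≤ (2 * (d : ℝ) - 1) / 8 - p.2 := by
    by_contra hcon
    push Not at hcon
    push_cast at h2
    nlinarith
  have h5 : (8 * (p.2 : ℝ)) ≤ 2 * d - 1 := by linarith
  have h6 : 8 * p.2 ≤ 2 * (d : ℤ) - 1 := by exact_mod_cast h5
  refine ⟨p.2.toNat, d - 4 * p.2.toNat, ?_, ?_, ?_⟩
  · omega
  · omega
  · omega

theorem hh_two {e : ℕ} (he : 2 ≤ e) : (hh e : ℝ) = 4 * e - 2 := by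
  have h0 : e ≠ 0 := by omega
  have h1 : e ≠ 1 := by omega
  have h2 : 2 ≤ 4 * e := by omega
  rw [hh, if_neg h0, if_neg h1, Nat.cast_sub h2]
  push_cast
  ring

theorem hh_one : (hh 1 : ℝ) = 3 := by simp [hh]

theorem hh_zero : (hh 0 : ℝ) = 1 := by simp [hh]

theorem E4_finite (τ : ℝ) (h0 : 0 ≤ τ) (h1 : τ ≤ 1) : (E4 τ d).Finite := by
  refine (Set.finite_Icc ((-(4 * d + 3) : ℤ), (0 : ℤ)) ((4 * d + 3 : ℤ), (d : ℤ))).subset ?_
  rintro ⟨i, y⟩ hp
  obtain ⟨j, e, hj, hd⟩ := rep hp
  simp only at hj
  subst hj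
  obtain ⟨g1, g2⟩ := (mem_E4 hd).1 hp
  have hle : (hh e : ℝ) ≤ 4 * d + 3 := by
    have h3 : hh e ≤ 4 * d + 3 := by
      unfold hh
      split_ifs <;> omega
    exact_mod_cast h3
  have hnn : (0 : ℝ) ≤ hh e := Nat.cast_nonneg _
  have a1 : (-(4 * d + 3) : ℝ) ≤ i := by nlinarith
  have a2 : (i : ℝ) ≤ 4 * d + 3 := by nlinarith
  have b1 : (-(4 * d + 3) : ℤ) ≤ i := by exact_mod_cast a1
  have b2 : i ≤ (4 * d + 3 : ℤ) := by exact_mod_cast a2
  rw [Set.mem_Icc, Prod.mk_le_mk, Prod.mk_le_mk]
  refine ⟨⟨b1, by omega⟩, b2, by omega⟩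

/-- **two sectors, emptiness** -/
theorem s_SECE : S_SECE := by
  intro K d ι _ w hK h8 h9 h0 h1
  have hfin : (E4 (1 - K / 16) d).Finite := E4_finite _ (by linarith) (by linarith)
  have key := cut_E (w := w) (v := w)
    (S := {p | p ∈ E4 (1 - K / 16) d ∧ (p.1 : ℝ) ≤ (K - 8) * ((2 * (d : ℝ) - 1) / 8 - p.2)})
    (T := {p | p ∈ E4 (1 - K / 16) d ∧ (K - 8) * ((2 * (d : ℝ) - 1) / 8 - p.2) < p.1})
    (hfin.subset fun p hp => hp.1) (hfin.subset fun p hp => hp.1) (-(K - 8)) ?_ ?_ ?_
  · refine key.mono ?_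
    intro p hp
    rcases le_or_gt (p.1 : ℝ) ((K - 8) * ((2 * (d : ℝ) - 1) / 8 - p.2)) with h | h
    · exact Or.inl ⟨hp, h⟩
    · exact Or.inr ⟨hp, h⟩
  · rintro p ⟨-, hp⟩ p' ⟨-, hp'⟩
    linarith
  · refine h1.comap 1 (-8) 0 1 (2 * d - 1) 0 (by norm_num) ?_
    rintro ⟨i, y⟩ ⟨hp, hc⟩
    obtain ⟨j, e, hj, hd⟩ := rep hp
    simp only at hj hc
    subst hj
    obtain ⟨g1, g2⟩ := (mem_E4 hd).1 hp
    have het := eta hd
    rw [het] at hc
    rcases Nat.lt_or_ge e 2 with he | he
    · interval_cases e
      · rw [hh_zero] at g1 g2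
        push_cast at hc g1 g2
        exfalso
        have a1 : (-1 : ℝ) < i := by linarith
        have a2 : (i : ℝ) < 0 := by linarith
        have b1 : (-1 : ℤ) < i := by exact_mod_cast a1
        have b2 : i < (0 : ℤ) := by exact_mod_cast a2
        omega
      · rw [hh_one] at g1 g2
        push_cast at hc g1 g2 het
        have a1 : (-2 : ℝ) < i := by linarith
        have a2 : (i : ℝ) < 1 := by linarith
        have b1 : (-2 : ℤ) < i := by exact_mod_cast a1
        have b2 : i < (1 : ℤ) := by exact_mod_cast a2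
        have b3 : i = -1 ∨ i = 0 := by omega
        rcases b3 with rfl | rfl
        · right
          refine ⟨?_, ?_, ?_⟩
          · simp only
            omega
          · simp only
            omega
          · simp only
            omega
        · left
          have e1 : ((1 * (0 : ℤ) + -8 * (j : ℤ) + (2 * (d : ℤ) - 1), 0 * (0 : ℤ) + 1 * (j : ℤ) + 0) :
              ℤ × ℤ) = (1, (j : ℤ)) := by
            ext
            · simp only
              omega
            · simp only
              omega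
          rw [e1]
          refine ⟨?_, ?_, ?_⟩
          · simp only
            omega
          · simp only
            push_cast
            rw [het]
            linarith
          · simp only
            push_cast
            rw [het]
            linarith
    · rw [hh_two he] at g1 g2
      left
      have e1 : ((1 * i + -8 * (j : ℤ) + (2 * (d : ℤ) - 1), 0 * i + 1 * (j : ℤ) + 0) :
          ℤ × ℤ) = (i + 2 * (e : ℤ) - 1, (j : ℤ)) := by
        ext
        · simp only
          omega
        · simp only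
          omega
      rw [e1]
      refine ⟨?_, ?_, ?_⟩
      · simp only
        omega
      · simp only
        rw [het]
        push_cast
        linarith
      · simp only
        rw [het]
        push_cast
        linarith
  · refine h0.mono ?_
    rintro ⟨i, y⟩ ⟨hp, hc⟩
    obtain ⟨j, e, hj, hd⟩ := rep hp
    simp only at hj hc
    subst hj
    obtain ⟨g1, g2⟩ := (mem_E4 hd).1 hp
    have het := eta hd
    rw [het] at hc
    rcases Nat.lt_or_ge e 2 with he | he
    · interval_cases e
      · rw [hh_zero] at g1 g2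
        push_cast at hc g1 g2
        have a1 : (-1 : ℝ) < i := by linarith
        have a2 : (i : ℝ) < 1 := by linarith
        have b1 : (-1 : ℤ) < i := by exact_mod_cast a1
        have b2 : i < (1 : ℤ) := by exact_mod_cast a2
        right
        refine ⟨?_, ?_, ?_⟩
        · simp only
          omega
        · simp only
          omega
        · simp only
          omega
      · rw [hh_one] at g1 g2
        push_cast at hc g1 g2 het
        have a1 : (0 : ℝ) < i := by linarith
        have a2 : (i : ℝ) < 2 := by linarith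
        have b1 : (0 : ℤ) < i := by exact_mod_cast a1
        have b2 : i < (2 : ℤ) := by exact_mod_cast a2
        have b3 : i = 1 := by omega
        subst b3
        left
        refine ⟨?_, ?_, ?_⟩
        · simp only
          omega
        · simp only
          push_cast
          rw [het]
          linarith
        · simp only
          push_cast
          rw [het]
          linarith
    · rw [hh_two he] at g1 g2
      left
      refine ⟨?_, ?_, ?_⟩
      · simp only
        omega
      · simp only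
        rw [het]
        push_cast
        linarith
      · simp only
        rw [het]
        push_cast
        linarith

/-- **two sectors, independence** -/
theorem s_SECS : S_SECS := by
  intro K d ι _ w hK h8 h9 h0
  have hirr : ∀ (e : ℕ), 1 ≤ e → ∀ i : ℤ, (K - 8) * ((2 * (e : ℝ) - 1) / 8) ≠ i := by
    intro e he i h
    have h1 : (0 : ℝ) < (2 * (e : ℝ) - 1) / 8 := by
      have : (1 : ℝ) ≤ e := by exact_mod_cast he
      linarith
    apply hK
    refine ⟨(i : ℚ) / ((2 * (e : ℚ) - 1) / 8) + 8, ?_⟩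
    push_cast
    rw [← h, mul_div_cancel_right₀ _ h1.ne']
    ring
  have key := cut_S (w := w) (v := w)
    (S := {p | ((p.1 + 2 * (d : ℤ) - 1 - 8 * p.2, p.2) : ℤ × ℤ) ∈ Bk 8 K d}) (T := Bk 8 K d)
    (-(K - 8)) ?_ ?_ h0
  · refine key.mono ?_
    rintro p (hp | hp)
    · obtain ⟨j, e, hj, hd, he⟩ := rep_Bk h8 hp
      obtain ⟨i, y⟩ := p
      simp only at hj
      subst hj
      obtain ⟨g1, g2, g3⟩ := hp
      have het := eta hd
      simp only at g1 g2 g3
      rw [het] at g2 g3
      have e1 : (((i + 2 * (d : ℤ) - 1 - 8 * (j : ℤ) : ℤ)) : ℝ) = i + 2 * e - 1 := by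
        rw [hd]
        push_cast
        ring
      rw [e1] at g2 g3
      push_cast at g2 g3
      rw [mem_E4 hd]
      rcases Nat.lt_or_ge e 2 with he2 | he2
      · have : e = 1 := by omega
        subst this
        rw [hh_one]
        push_cast at g2 g3
        have a1 : (-1 : ℝ) < i := by linarith
        have a2 : (i : ℝ) < 1 := by linarith
        have b1 : (-1 : ℤ) < i := by exact_mod_cast a1
        have b2 : i < (1 : ℤ) := by exact_mod_cast a2
        have b3 : i = 0 := by omega
        subst b3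
        push_cast
        constructor <;> linarith
      · rw [hh_two he2]
        constructor <;> linarith
    · obtain ⟨j, e, hj, hd, he⟩ := rep_Bk h8 hp
      obtain ⟨i, y⟩ := p
      simp only at hj
      subst hj
      obtain ⟨g1, g2, g3⟩ := hp
      have het := eta hd
      simp only at g1 g2 g3
      rw [het] at g2 g3
      push_cast at g2 g3
      rw [mem_E4 hd]
      rcases Nat.lt_or_ge e 2 with he2 | he2
      · have : e = 1 := by omega
        subst this
        rw [hh_one]
        push_cast at g2 g3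
        have a1 : (0 : ℝ) < i := by linarith
        have a2 : (i : ℝ) < 2 := by linarith
        have b1 : (0 : ℤ) < i := by exact_mod_cast a1
        have b2 : i < (2 : ℤ) := by exact_mod_cast a2
        have b3 : i = 1 := by omega
        subst b3
        push_cast
        constructor <;> linarith
      · rw [hh_two he2]
        constructor <;> linarith
  · rintro p hp p' hp'
    obtain ⟨j', e', hj', hd', he'⟩ := rep_Bk h8 hp'
    obtain ⟨g1, g2, g3⟩ := hp
    obtain ⟨g1', g2', g3'⟩ := hp'
    have h3 := hirr e' he' p'.1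
    have het := eta hd'
    rw [← hj'] at het
    rw [← het] at h3
    push_cast at g3 g2'
    have h4 := lt_of_le_of_ne g2' h3
    linarith
  · refine h0.comap 1 (-8) 0 1 (2 * d - 1) 0 (by norm_num) ?_
    rintro ⟨x, y⟩ hp
    refine ⟨(x - 2 * d + 1 + 8 * y, y), ?_, ?_⟩
    · have e1 : ((x - 2 * (d : ℤ) + 1 + 8 * y + 2 * (d : ℤ) - 1 - 8 * y, y) : ℤ × ℤ) = (x, y) := by
        ext
        · simp only
          ring
        · rfl
      simp only [Set.mem_setOf_eq]
      rw [e1]
      exact hp
    · ext
      · simp only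
        ring
      · simp only
        ring

end Pool.Agent.L7h4.NQ
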